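import Pool.Agent.W999.DL.Stms

set_option autoImplicit false

namespace Pool.Agent.W395.DL.Dist

open Pool.Agent.W999.DL SimpleGraph

lemma adj_iff (t : ℕ) (ht : 3 ≤ t) (u v : Fin t) : (cycleGraph t).Adj u v ↔
    (u.val + 1 = v.val ∨ v.val + 1 = u.val ∨ (u.val = 0 ∧ v.val + 1 = t) ∨
      (v.val = 0 ∧ u.val + 1 = t)) := by
  rw [cycleGraph_adj']
  obtain ⟨u, hu⟩ := u
  obtain ⟨v, hv⟩ := v
  simp only [Fin.sub_def]
  have h1 : (t - v + u) % t = if v ≤ u then u - v else t - v + u := by
    split_ifs with h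
    · have : t - v + u = (u - v) + t := by omega
      rw [this, Nat.add_mod_right, Nat.mod_eq_of_lt (by omega)]
    · rw [Nat.mod_eq_of_lt (by omega)]
  have h2 : (t - u + v) % t = if u ≤ v then v - u else t - u + v := by
    split_ifs with h
    · have : t - u + v = (v - u) + t := by omega
      rw [this, Nat.add_mod_right, Nat.mod_eq_of_lt (by omega)]
    · rw [Nat.mod_eq_of_lt (by omega)]
  rw [h1, h2]
  split_ifs <;> omega

/-- the vertex number `n` modulo `t` -/
def vert (t : ℕ) (ht : 3 ≤ t) (n : ℕ) : Fin t := ⟨n % t, Nat.mod_lt _ (by omega)⟩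

lemma vert_adj (t : ℕ) (ht : 3 ≤ t) (n : ℕ) :
    (cycleGraph t).Adj (vert t ht n) (vert t ht (n + 1)) := by
  rw [adj_iff t ht]
  have h0 : n % t < t := Nat.mod_lt _ (by omega)
  have h1 : (n + 1) % t = if n % t + 1 = t then 0 else n % t + 1 := by
    rw [Nat.add_mod, Nat.mod_eq_of_lt (a := 1) (by omega)]
    split_ifs with h
    · rw [h, Nat.mod_self]
    · rw [Nat.mod_eq_of_lt (by omega)]
  simp only [vert, h1]
  split_ifs <;> omega

lemma walk_exists (t : ℕ) (ht : 3 ≤ t) (n k : ℕ) :
    ∃ p : (cycleGraph t).Walk (vert t ht n) (vert t ht (n + k)), p.length = k := by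
  induction k with
  | zero => exact ⟨Walk.nil, rfl⟩
  | succ k ih =>
    obtain ⟨p, hp⟩ := ih
    refine ⟨p.concat (vert_adj t ht (n + k)), ?_⟩
    rw [Walk.length_concat, hp]

lemma dist_le_of (t : ℕ) (ht : 3 ≤ t) (n k : ℕ) (u v : Fin t) (hu : n % t = u)
    (hv : (n + k) % t = v) : (cycleGraph t).dist u v ≤ k := by
  obtain ⟨p, hp⟩ := walk_exists t ht n k
  have h1 : vert t ht n = u := Fin.ext hu
  have h2 : vert t ht (n + k) = v := Fin.ext hv
  have h3 := SimpleGraph.dist_le p
  rw [hp, h1, h2] at h3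
  exact h3

lemma cdist_step (t : ℕ) (ht : 3 ≤ t) (u v w : Fin t) (h : (cycleGraph t).Adj u v) :
    cdist t u w ≤ cdist t v w + 1 := by
  rw [adj_iff t ht] at h
  have hu := u.2
  have hv := v.2
  have hw := w.2
  unfold cdist
  omega

lemma cdist_le_length (t : ℕ) (ht : 3 ≤ t) (u v : Fin t) (p : (cycleGraph t).Walk u v) :
    cdist t u v ≤ p.length := by
  induction p with
  | nil =>
    unfold cdist
    simp
  | cons h p ih =>
    rw [Walk.length_cons]
    exact le_trans (cdist_step t ht _ _ _ h) (Nat.add_le_add_right ih 1)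

lemma dist_le_cdist (t : ℕ) (ht : 3 ≤ t) (u v : Fin t) (huv : u.val ≤ v.val) :
    (cycleGraph t).dist u v ≤ cdist t u v := by
  have hu := u.2
  have hv := v.2
  have h1 : (cycleGraph t).dist u v ≤ v.val - u.val := by
    apply dist_le_of t ht u.val (v.val - u.val) u v (Nat.mod_eq_of_lt hu)
    have : u.val + (v.val - u.val) = v.val := by omega
    rw [this]
    exact Nat.mod_eq_of_lt hv
  have h2 : (cycleGraph t).dist v u ≤ t - (v.val - u.val) := by
    apply dist_le_of t ht v.val (t - (v.val - u.val)) v u (Nat.mod_eq_of_lt hv)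
    have : v.val + (t - (v.val - u.val)) = u.val + t := by omega
    rw [this, Nat.add_mod_right]
    exact Nat.mod_eq_of_lt hu
  rw [SimpleGraph.dist_comm] at h2
  unfold cdist
  have h3 : max u.val v.val - min u.val v.val = v.val - u.val := by omega
  rw [h3]
  exact le_min h1 h2

theorem dist : S_DIST := by
  intro t ht u v
  apply le_antisymm
  · rcases le_total u.val v.val with h | h
    · exact dist_le_cdist t ht u v h
    · rw [SimpleGraph.dist_comm]
      have h1 := dist_le_cdist t ht v u h
      have h2 : cdist t v u = cdist t u v := by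
        unfold cdist
        omega
      rw [h2] at h1
      exact h1
  · obtain ⟨p, hp⟩ := (cycleGraph_preconnected u v).exists_walk_length_eq_dist
    rw [← hp]
    exact cdist_le_length t ht u v p

theorem main : S_DIST := dist

end Pool.Agent.W395.DL.Dist
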