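import Pool.Agent.W999.DL.Stms

set_option autoImplicit false

namespace Pool.Agent.W395.DL.Numb

open Pool.Agent.W999.DL

theorem numb : S_NUMB := by
  classical
  intro J Q hJ hQ
  have : Fact Q.Prime := ⟨hQ⟩
  have : NeZero (2 ^ (J + 1)) := ⟨by positivity⟩
  have hQ0 : 0 < Q := hQ.pos
  have hN : 0 < nN J Q := by unfold nN; positivity
  have hc1 : Fintype.card (Y J Q) = nN J Q := by
    unfold nN
    rw [Fintype.card_fun, Fintype.card_prod, ZMod.card, Fintype.card_fin, ← pow_two, ← pow_mul]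
  have hc2 : Fintype.card (ZMod (2 ^ (J + 1)) × Y J Q) = 2 ^ (J + 1) * nN J Q := by
    rw [Fintype.card_prod, ZMod.card, hc1]
  obtain e1 : Fin (nN J Q) ≃ Y J Q := (Fintype.equivFinOfCardEq hc1).symm
  obtain e2 : Fin (2 ^ (J + 1) * nN J Q) ≃ ZMod (2 ^ (J + 1)) × Y J Q :=
    (Fintype.equivFinOfCardEq hc2).symm
  have hdiv : ∀ τ, τ < tT J Q → τ / nN J Q < 2 ^ (J + 1) * nN J Q := by
    intro τ hτ
    rw [Nat.div_lt_iff_lt_mul hN]
    exact hτ
  let P : ℕ → ZMod (2 ^ (J + 1)) × Y J Q := fun τ =>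
    if h : τ / nN J Q < 2 ^ (J + 1) * nN J Q then e2 ⟨τ / nN J Q, h⟩ else default
  let R : ℕ → Y J Q := fun τ => e1 ⟨τ % nN J Q, Nat.mod_lt _ hN⟩
  refine ⟨fun τ => ((P τ).1, R τ, (P τ).2), ?_, ?_⟩
  · intro τ _ τ' _
    show R τ = R τ' ↔ _
    simp only [R, e1.injective.eq_iff, Fin.mk.injEq]
  · intro τ hτ τ' hτ'
    show ((P τ).1 = (P τ').1 ∧ (P τ).2 = (P τ').2) ↔ _
    rw [← Prod.ext_iff]
    simp only [P, dif_pos (hdiv τ hτ), dif_pos (hdiv τ' hτ'), e2.injective.eq_iff, Fin.mk.injEq]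

theorem main : S_NUMB := numb

end Pool.Agent.W395.DL.Numb
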